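import Mathlib
import Pool.Agent.H17.Asc2

namespace Pool.Agent.Results.MP_1cbded_gt.Aleph

open Set

/-- `𝒩` is a k-network of `X`. -/
def IsKNetwork {X : Type*} [TopologicalSpace X] (𝒩 : Set (Set X)) : Prop :=
  ∀ K U : Set X, IsCompact K → IsOpen U → K ⊆ U →
    ∃ ℱ : Set (Set X), ℱ.Finite ∧ ℱ ⊆ 𝒩 ∧ K ⊆ ⋃₀ ℱ ∧ ⋃₀ ℱ ⊆ U

/-- Regular with a countable k-network. -/
def IsAleph0Space (X : Type*) [TopologicalSpace X] : Prop :=
  RegularSpace X ∧ ∃ 𝒩 : Set (Set X), 𝒩.Countable ∧ IsKNetwork 𝒩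

/-- Every compact set of `C(X, ℝ)` (compact-open topology) has jointly continuous evaluation. -/
def IsAscoli (X : Type*) [TopologicalSpace X] : Prop :=
  ∀ 𝒦 : Set C(X, ℝ), IsCompact 𝒦 → Continuous fun p : X × 𝒦 => (p.2 : C(X, ℝ)) p.1

/-- Every real function that is continuous on each compact set is continuous. -/
def IsKR (X : Type*) [TopologicalSpace X] : Prop :=
  ∀ f : X → ℝ, (∀ K : Set X, IsCompact K → ContinuousOn f K) → Continuous f

theorem result (X : Type*) [TopologicalSpace X] [T35Space X] (h0 : IsAleph0Space X)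
    (hA : IsAscoli X) : IsKR X := by
  obtain ⟨-, 𝒩, hc, h𝒩⟩ := h0
  exact fun f hf => Pool.Agent.H17.Asc2.main 𝒩 hc h𝒩 hA f hf

end Pool.Agent.Results.MP_1cbded_gt.Aleph
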